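import Pool.Agent.Q192.BD.Cantor

/-! MP_bd3523_gt, Q1: yes, already for the plane. -/

set_option autoImplicit false

open Pool.Agent.Q192.BD

namespace Pool.Agent.Results.MP_bd3523_gt.UncountableNonDiff

/-- There is a homeomorphism `f` of the plane such that `f` and its inverse map every `C¹` curve
onto a `C¹` curve and the set of points at which `f` is not differentiable is an uncountable
compact set. Off this set `f` is a local `C¹` diffeomorphism: its derivative exists in the strict
sense and is invertible. -/
theorem result :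
    ∃ f : ℂ ≃ₜ ℂ, InHomeo1 f ∧
      ¬ {z : ℂ | ¬ DifferentiableAt ℝ f z}.Countable ∧
      IsCompact {z : ℂ | ¬ DifferentiableAt ℝ f z} ∧
      ∀ z : ℂ, DifferentiableAt ℝ f z →
        ∃ L : ℂ ≃L[ℝ] ℂ, HasStrictFDerivAt f (L : ℂ →L[ℝ] ℂ) z := by
  have hset : {z : ℂ | ¬ DifferentiableAt ℝ cdat.homeo z} = cdat.K := by
    ext z
    constructor
    · intro hz
      by_contra hK
      obtain ⟨L, hL⟩ := cdat.strict_equiv hK
      exact hz hL.differentiableAt
    · intro hz
      exact cdat.not_diff hz
  refine ⟨cdat.homeo, cdat.homeo_inHomeo1, ?_, ?_, ?_⟩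
  · rw [hset]
    exact cdat_uncountable
  · rw [hset]
    exact cdat.comp
  · intro z hz
    have hK : z ∉ cdat.K := fun h => cdat.not_diff h hz
    exact cdat.strict_equiv hK

end Pool.Agent.Results.MP_bd3523_gt.UncountableNonDiff
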